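import Mathlib
import Pool.Agent.H295R2.Mol.Defs

/-!
# The lower bound (T5b) for the optimal mollification error of an L-function
-/

set_option autoImplicit false

open MeasureTheory Filter Topology Set
open scoped ENNReal

namespace Pool.Agent.H889R2.Mol

open Pool.Agent.H295R2.Mol

lemma ker_bound (c : ℝ) (s0 : ℂ) (hc : c ≠ s0.re) (t : ℝ) :
    ‖Complex.exp (((c : ℂ) + t * Complex.I - s0) ^ 2) / ((c : ℂ) + t * Complex.I - s0)‖ ≤
      Real.exp ((c - s0.re) ^ 2) / |c - s0.re| * Real.exp (-(t - s0.im) ^ 2) := by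
  have hre : (((c : ℂ) + t * Complex.I - s0) ^ 2).re = (c - s0.re) ^ 2 - (t - s0.im) ^ 2 := by
    rw [pow_two, Complex.mul_re]
    simp
    ring
  have hpos : 0 < |c - s0.re| := abs_pos.mpr (sub_ne_zero.mpr hc)
  have hden : |c - s0.re| ≤ ‖(c : ℂ) + t * Complex.I - s0‖ := by
    have h := Complex.abs_re_le_norm ((c : ℂ) + t * Complex.I - s0)
    simpa using h
  rw [norm_div, Complex.norm_exp, hre]
  have : Real.exp ((c - s0.re) ^ 2) / |c - s0.re| * Real.exp (-(t - s0.im) ^ 2) =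
      Real.exp ((c - s0.re) ^ 2 - (t - s0.im) ^ 2) / |c - s0.re| := by
    rw [sub_eq_add_neg ((c - s0.re) ^ 2), Real.exp_add]
    ring_nf
  rw [this]
  exact div_le_div_of_nonneg_left (Real.exp_pos _).le hpos hden

lemma gauss_bound (A γ t : ℝ) (hA : 0 ≤ A) :
    (1 + |t|) ^ A * Real.exp (-(t - γ) ^ 2) ≤
      Real.exp (A * |γ| + A ^ 2 / 2) * Real.exp (-(1 / 2) * (t - γ) ^ 2) := by
  have h1 : (1 + |t|) ^ A ≤ Real.exp (A * |t|) := by
    have h2 : 1 + |t| ≤ Real.exp |t| := by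
      have := Real.add_one_le_exp |t|
      linarith
    calc (1 + |t|) ^ A ≤ (Real.exp |t|) ^ A :=
          Real.rpow_le_rpow (by positivity) h2 hA
      _ = Real.exp (A * |t|) := by
          rw [← Real.exp_mul, mul_comm]
  have h3 : |t| ≤ |γ| + |t - γ| := by
    have := abs_add_le γ (t - γ)
    simpa using this
  have h4 : A * |t - γ| ≤ A ^ 2 / 2 + (t - γ) ^ 2 / 2 := by
    have := sq_nonneg (A - |t - γ|)
    have h5 := sq_abs (t - γ)
    nlinarith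
  calc (1 + |t|) ^ A * Real.exp (-(t - γ) ^ 2) ≤ Real.exp (A * |t|) * Real.exp (-(t - γ) ^ 2) := by
        gcongr
    _ = Real.exp (A * |t| + -(t - γ) ^ 2) := by rw [Real.exp_add]
    _ ≤ Real.exp ((A * |γ| + A ^ 2 / 2) + -(1 / 2) * (t - γ) ^ 2) := by
        apply Real.exp_le_exp.mpr
        have := mul_le_mul_of_nonneg_left h3 hA
        nlinarith
    _ = _ := by rw [Real.exp_add]

lemma line_bound (c : ℝ) (s0 : ℂ) (hc : c ≠ s0.re) (A : ℝ) (hA : 0 ≤ A) :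
    ∃ I : ℝ, 0 < I ∧ ∀ (h : ℝ → ℂ) (M : ℝ), 0 ≤ M → (∀ t, ‖h t‖ ≤ M * (1 + |t|) ^ A) →
      ‖∫ t : ℝ, h t * (Complex.exp (((c : ℂ) + t * Complex.I - s0) ^ 2) /
        ((c : ℂ) + t * Complex.I - s0))‖ ≤ M * I := by
  have hpos : 0 < |c - s0.re| := abs_pos.mpr (sub_ne_zero.mpr hc)
  set D : ℝ := Real.exp ((c - s0.re) ^ 2) / |c - s0.re| * Real.exp (A * |s0.im| + A ^ 2 / 2) with hD
  have hDpos : 0 < D := by positivity
  have hint : Integrable (fun t : ℝ => Real.exp (-(1 / 2) * (t - s0.im) ^ 2)) :=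
    (integrable_exp_neg_mul_sq (b := 1 / 2) (by norm_num)).comp_sub_right s0.im
  have hIpos : 0 ≤ ∫ t : ℝ, Real.exp (-(1 / 2) * (t - s0.im) ^ 2) :=
    integral_nonneg (fun t => (Real.exp_pos _).le)
  refine ⟨D * (∫ t : ℝ, Real.exp (-(1 / 2) * (t - s0.im) ^ 2)) + 1, by positivity, ?_⟩
  intro h M hM hh
  have hb : ∀ t : ℝ, ‖h t * (Complex.exp (((c : ℂ) + t * Complex.I - s0) ^ 2) /
        ((c : ℂ) + t * Complex.I - s0))‖ ≤ M * D * Real.exp (-(1 / 2) * (t - s0.im) ^ 2) := by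
    intro t
    rw [norm_mul]
    calc ‖h t‖ * _ ≤ (M * (1 + |t|) ^ A) *
          (Real.exp ((c - s0.re) ^ 2) / |c - s0.re| * Real.exp (-(t - s0.im) ^ 2)) := by
          gcongr
          · exact hh t
          · exact ker_bound c s0 hc t
      _ = M * (Real.exp ((c - s0.re) ^ 2) / |c - s0.re|) *
          ((1 + |t|) ^ A * Real.exp (-(t - s0.im) ^ 2)) := by ring
      _ ≤ M * (Real.exp ((c - s0.re) ^ 2) / |c - s0.re|) *
          (Real.exp (A * |s0.im| + A ^ 2 / 2) * Real.exp (-(1 / 2) * (t - s0.im) ^ 2)) := by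
          exact mul_le_mul_of_nonneg_left (gauss_bound A s0.im t hA) (by positivity)
      _ = M * D * Real.exp (-(1 / 2) * (t - s0.im) ^ 2) := by rw [hD]; ring
  have h1 := norm_integral_le_of_norm_le (hint.const_mul (M * D)) (Eventually.of_forall hb)
  rw [integral_const_mul] at h1
  calc _ ≤ _ := h1
    _ ≤ M * (D * (∫ t : ℝ, Real.exp (-(1 / 2) * (t - s0.im) ^ 2)) + 1) := by nlinarith

lemma norm_cpow_nat {n : ℕ} (hn : 1 ≤ n) (s : ℂ) : ‖(n : ℂ) ^ (-s)‖ = (n : ℝ) ^ (-s.re) := by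
  rw [Complex.norm_natCast_cpow_of_pos (by omega)]
  simp

lemma DP_diff (N : ℕ) (a : ℕ → ℂ) : Differentiable ℂ (DP N a) := by
  unfold DP
  apply Differentiable.fun_sum
  intro n hn
  have hn1 : 1 ≤ n := (Finset.mem_Icc.mp hn).1
  apply Differentiable.const_mul
  intro s
  apply DifferentiableAt.const_cpow
  · exact differentiableAt_id.neg
  · left
    exact_mod_cast (by omega : n ≠ 0)

lemma DP_bound (N : ℕ) (a : ℕ → ℂ) (x : ℝ) (s : ℂ) (hx : x ≤ s.re) :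
    ‖DP N a s‖ ≤ ∑ n ∈ Finset.Icc 1 N, ‖a n‖ * (n : ℝ) ^ (-x) := by
  unfold DP
  refine (norm_sum_le _ _).trans (Finset.sum_le_sum ?_)
  intro n hn
  have hn1 : 1 ≤ n := (Finset.mem_Icc.mp hn).1
  rw [norm_mul, norm_cpow_nat hn1]
  have : (1 : ℝ) ≤ n := by exact_mod_cast hn1
  gcongr

lemma DP_trunc (N M : ℕ) (hNM : N ≤ M) (a : ℕ → ℂ) :
    DP M (fun n => if n ≤ N then a n else 0) = DP N a := by
  funext s
  unfold DP
  symm
  rw [← Finset.sum_subset (s₁ := Finset.Icc 1 N) (s₂ := Finset.Icc 1 M)]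
  · apply Finset.sum_congr rfl
    intro n hn
    simp only [if_pos (Finset.mem_Icc.mp hn).2]
  · exact Finset.Icc_subset_Icc le_rfl hNM
  · intro n hn hn'
    rw [Finset.mem_Icc] at hn hn'
    have : ¬ n ≤ N := by omega
    simp only [if_neg this, zero_mul]

lemma nrm_trunc (F : ℂ → ℂ) (p : ℝ≥0∞) (w σ : ℝ) (N M : ℕ) (hNM : N ≤ M) (a : ℕ → ℂ) :
    nrm F p w σ M (fun n => if n ≤ N then a n else 0) = nrm F p w σ N a := by
  unfold nrm GG
  rw [DP_trunc N M hNM a]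

lemma exp_norm (N : ℕ) (hN : 1 ≤ N) (k : ℝ) (s ρ : ℂ) :
    ‖Complex.exp ((k : ℂ) * (Real.log N : ℂ) * (s - ρ))‖ = (N : ℝ) ^ (k * (s.re - ρ.re)) := by
  have hN0 : (0 : ℝ) < N := by exact_mod_cast (by omega : 0 < N)
  rw [Complex.norm_exp, Real.rpow_def_of_pos hN0]
  congr 1
  have : ((k : ℂ) * (Real.log N : ℂ) * (s - ρ)).re = k * Real.log N * (s.re - ρ.re) := by
    rw [← Complex.ofReal_mul, Complex.re_ofReal_mul, Complex.sub_re]
  rw [this]
  ring

lemma lower_large (h1 : Cauchy) (h2 : StepR) (h3 : Coef) (lam mu : ℕ → ℂ) (F : ℂ → ℂ)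
    (hLF : LF lam mu F) (p : ℝ≥0∞) (w σ : ℝ) (hp : 1 ≤ p) (ρ : ℂ) (hρ : F ρ = 0) (η : ℝ)
    (hη : 0 < η) :
    ∃ C : ℝ, 0 < C ∧ ∀ (N : ℕ) (a : ℕ → ℂ), 1 ≤ N → nrm F p w σ N a ≤ 1 →
      2 * Real.pi ≤ C * (N : ℝ) ^ (max 0 (σ - ρ.re) + η) * (nrm F p w σ N a).toReal + C / N := by
  set r : ℝ := ρ.re with hr
  set m : ℝ := max 0 (σ - r) with hm
  have hm0 : 0 ≤ m := le_max_left _ _
  set δ : ℝ := η / 2 with hδ
  have hδ0 : 0 < δ := by positivity
  set κ : ℝ := (η / 2) / (1 + m + δ) with hκ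
  have hκ0 : 0 < κ := by positivity
  have hκe : κ * (1 + m + δ) = η / 2 := by
    rw [hκ]; field_simp
  set σ1 : ℝ := max σ r + δ with hσ1
  have hσ1r : σ1 - r = m + δ := by
    rw [hσ1, hm]
    rcases le_total σ r with h | h
    · rw [max_eq_right h, max_eq_left (by linarith)]; ring
    · rw [max_eq_left h, max_eq_right (by linarith)]; ring
  set K : ℝ := m + η + 1 with hK
  obtain ⟨C2, B2, hC2, hB2, H2⟩ := h2 lam mu F hLF p w σ hp δ κ σ1 K hδ0 hκ0
  obtain ⟨C3, B3, hC3, hB3, H3⟩ := h3 lam mu F hLF p w σ hp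
  set σ' : ℝ := -((B3 + 2 + (1 + κ) * |r|) / κ) - 1 - |r| with hσ'
  have hq0 : 0 ≤ (B3 + 2 + (1 + κ) * |r|) / κ := by positivity
  have hq : κ * ((B3 + 2 + (1 + κ) * |r|) / κ) = B3 + 2 + (1 + κ) * |r| := by
    field_simp
  have hσ'0 : σ' ≤ 0 := by
    have := abs_nonneg r
    rw [hσ']; linarith
  have hσ'r : σ' - r ≤ -1 := by
    have := neg_abs_le r
    rw [hσ']; linarith
  have hκσ' : κ * σ' ≤ -(B3 + 2 + (1 + κ) * |r|) := by
    have : κ * σ' = -(κ * ((B3 + 2 + (1 + κ) * |r|) / κ)) - κ * (1 + |r|) := by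
      rw [hσ']; ring
    rw [this, hq]
    have : 0 ≤ κ * (1 + |r|) := by positivity
    linarith
  obtain ⟨C4, A4, H4⟩ := hLF.growth σ' σ1
  set C4' : ℝ := max C4 0 with hC4'
  set A4' : ℝ := max A4 0 with hA4'
  have hC4'0 : 0 ≤ C4' := le_max_right _ _
  have hA4'0 : 0 ≤ A4' := le_max_right _ _
  have H4' : ∀ s : ℂ, σ' ≤ s.re → s.re ≤ σ1 → ‖F s‖ ≤ C4' * (1 + |s.im|) ^ A4' := by
    intro s ha hb
    refine (H4 s ha hb).trans ?_
    have h1 : (1 : ℝ) ≤ 1 + |s.im| := by have := abs_nonneg s.im; linarith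
    calc C4 * (1 + |s.im|) ^ A4 ≤ C4' * (1 + |s.im|) ^ A4 := by
          gcongr
          exact le_max_left _ _
      _ ≤ C4' * (1 + |s.im|) ^ A4' := by
          apply mul_le_mul_of_nonneg_left _ hC4'0
          exact Real.rpow_le_rpow_of_exponent_le h1 (le_max_left _ _)
  have hne1 : σ1 ≠ ρ.re := by
    intro h
    rw [← hr] at h
    linarith
  have hne2 : σ' ≠ ρ.re := by
    intro h
    rw [← hr] at h
    linarith
  obtain ⟨I1, hI1, L1⟩ := line_bound σ1 ρ hne1 B2 hB2.le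
  obtain ⟨I2, hI2, L2⟩ := line_bound σ' ρ hne2 A4' hA4'0
  refine ⟨C2 * I1 + (1 + C3 * C4') * I2, by positivity, ?_⟩
  intro N a hN hn
  have hN1 : (1 : ℝ) ≤ N := by exact_mod_cast hN
  have hN0 : (0 : ℝ) < N := by linarith
  set X : ℝ := (nrm F p w σ N a).toReal with hX
  have hX0 : 0 ≤ X := ENNReal.toReal_nonneg
  set H : ℂ → ℂ := fun s => GG F N a s * Complex.exp (((1 + κ : ℝ) : ℂ) * (Real.log N : ℂ) * (s - ρ))
    with hH
  have hHρ : H ρ = 1 := by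
    simp [hH, GG, hρ]
  have hdiff : Differentiable ℂ H := by
    apply Differentiable.mul
    · unfold GG
      exact (differentiable_const _).sub (hLF.entire.mul (DP_diff N a))
    · apply Differentiable.cexp
      exact ((differentiable_id.sub_const ρ).const_mul _)
  set S : ℝ := ∑ n ∈ Finset.Icc 1 N, ‖a n‖ * (n : ℝ) ^ (-σ') with hS
  have hS0 : 0 ≤ S := Finset.sum_nonneg (fun n _ => by positivity)
  have hGG : ∀ s : ℂ, σ' ≤ s.re → s.re ≤ σ1 → ‖GG F N a s‖ ≤ (1 + C4' * S) * (1 + |s.im|) ^ A4' := by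
    intro s ha hb
    have h1 : (1 : ℝ) ≤ 1 + |s.im| := by have := abs_nonneg s.im; linarith
    have h2 : (1 : ℝ) ≤ (1 + |s.im|) ^ A4' := Real.one_le_rpow h1 hA4'0
    calc ‖GG F N a s‖ ≤ ‖(1 : ℂ)‖ + ‖F s * DP N a s‖ := norm_sub_le _ _
      _ ≤ 1 + (C4' * (1 + |s.im|) ^ A4') * S := by
          rw [norm_one, norm_mul]
          gcongr
          · exact H4' s ha hb
          · exact DP_bound N a σ' s ha
      _ ≤ (1 + C4' * S) * (1 + |s.im|) ^ A4' := by nlinarith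
  have hgrow : ∃ C A : ℝ, ∀ s : ℂ, σ' ≤ s.re → s.re ≤ σ1 → ‖H s‖ ≤ C * (1 + |s.im|) ^ A := by
    refine ⟨(1 + C4' * S) * (N : ℝ) ^ ((1 + κ) * (σ1 - ρ.re)), A4', ?_⟩
    intro s ha hb
    rw [hH]
    simp only
    rw [norm_mul, exp_norm N hN]
    calc ‖GG F N a s‖ * (N : ℝ) ^ ((1 + κ) * (s.re - ρ.re)) ≤
        ((1 + C4' * S) * (1 + |s.im|) ^ A4') * (N : ℝ) ^ ((1 + κ) * (σ1 - ρ.re)) := by
          gcongr
          exact hGG s ha hb
      _ = _ := by ring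
  have hC := h1 H σ' σ1 ρ (by rw [← hr]; linarith) (by rw [← hr]; linarith) hdiff hgrow
  rw [hHρ, mul_one] at hC
  have hC' : 2 * Real.pi = ‖(2 * (Real.pi : ℂ))‖ := by
    rw [norm_mul]
    simp [abs_of_pos Real.pi_pos]
  -- the line `Re s = σ1`
  have hre : ∀ (x t : ℝ), ((x : ℂ) + t * Complex.I).re = x := by intro x t; simp
  have him : ∀ (x t : ℝ), ((x : ℂ) + t * Complex.I).im = t := by intro x t; simp
  have b1 : ∀ t : ℝ, ‖H (σ1 + t * Complex.I)‖ ≤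
      (C2 * (N : ℝ) ^ κ * (X + (N : ℝ) ^ (-K)) * (N : ℝ) ^ ((1 + κ) * (σ1 - r))) * (1 + |t|) ^ B2 := by
    intro t
    have hs := H2 N a hN hn (σ1 + t * Complex.I) (by
      rw [hre]
      have := le_max_left σ r
      linarith) (by rw [hre])
    rw [him] at hs
    rw [hH]
    simp only
    rw [norm_mul, exp_norm N hN, hre]
    calc _ ≤ (C2 * (1 + |t|) ^ B2 * (N : ℝ) ^ κ * (X + (N : ℝ) ^ (-K))) *
          (N : ℝ) ^ ((1 + κ) * (σ1 - r)) := by
          gcongr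
      _ = _ := by ring
  have e1 := L1 (fun t => H (σ1 + t * Complex.I)) _ (by positivity) b1
  -- the line `Re s = σ'`
  have hSb : S ≤ C3 * (N : ℝ) ^ (B3 + 1 - σ') := by
    calc S ≤ ∑ n ∈ Finset.Icc 1 N, (C3 * (N : ℝ) ^ B3) * (N : ℝ) ^ (-σ') := by
          apply Finset.sum_le_sum
          intro n hn'
          have hn1 : 1 ≤ n := (Finset.mem_Icc.mp hn').1
          have hnN : (n : ℝ) ≤ N := by exact_mod_cast (Finset.mem_Icc.mp hn').2
          gcongr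
          · exact H3 N a hN hn n hn'
          · linarith
      _ = (N : ℝ) * ((C3 * (N : ℝ) ^ B3) * (N : ℝ) ^ (-σ')) := by
          rw [Finset.sum_const, Nat.card_Icc, nsmul_eq_mul]
          simp
      _ = C3 * (N : ℝ) ^ (B3 + 1 - σ') := by
          rw [show B3 + 1 - σ' = 1 + (B3 + -σ') by ring, Real.rpow_add hN0, Real.rpow_one,
            Real.rpow_add hN0]
          ring
  have b2 : ∀ t : ℝ, ‖H (σ' + t * Complex.I)‖ ≤
      ((1 + C3 * C4') * (N : ℝ)⁻¹) * (1 + |t|) ^ A4' := by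
    intro t
    have hs := hGG (σ' + t * Complex.I) (by rw [hre]) (by rw [hre]; linarith)
    rw [him] at hs
    rw [hH]
    simp only
    rw [norm_mul, exp_norm N hN, hre]
    have k1 : (N : ℝ) ^ ((1 + κ) * (σ' - r)) ≤ (N : ℝ)⁻¹ := by
      rw [← Real.rpow_neg_one]
      apply Real.rpow_le_rpow_of_exponent_le hN1
      nlinarith
    have k2 : (N : ℝ) ^ (B3 + 1 - σ') * (N : ℝ) ^ ((1 + κ) * (σ' - r)) ≤ (N : ℝ)⁻¹ := by
      rw [← Real.rpow_neg_one, ← Real.rpow_add hN0]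
      apply Real.rpow_le_rpow_of_exponent_le hN1
      have := neg_abs_le r
      have : (1 + κ) * (-r) ≤ (1 + κ) * |r| := by
        apply mul_le_mul_of_nonneg_left _ (by linarith)
        exact neg_le_abs r
      nlinarith
    have hp0 : 0 ≤ (1 + |t|) ^ A4' := by positivity
    calc _ ≤ ((1 + C4' * S) * (1 + |t|) ^ A4') * (N : ℝ) ^ ((1 + κ) * (σ' - r)) := by
          gcongr
      _ ≤ ((1 + C4' * (C3 * (N : ℝ) ^ (B3 + 1 - σ'))) * (1 + |t|) ^ A4') *
          (N : ℝ) ^ ((1 + κ) * (σ' - r)) := by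
          gcongr
      _ = ((N : ℝ) ^ ((1 + κ) * (σ' - r)) + C4' * C3 *
          ((N : ℝ) ^ (B3 + 1 - σ') * (N : ℝ) ^ ((1 + κ) * (σ' - r)))) * (1 + |t|) ^ A4' := by ring
      _ ≤ ((N : ℝ)⁻¹ + C4' * C3 * (N : ℝ)⁻¹) * (1 + |t|) ^ A4' := by
          gcongr
      _ = _ := by ring
  have e2 := L2 (fun t => H (σ' + t * Complex.I)) _ (by positivity) b2
  have e3 : (N : ℝ) ^ κ * (N : ℝ) ^ ((1 + κ) * (σ1 - r)) = (N : ℝ) ^ (m + η) := by
    rw [← Real.rpow_add hN0]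
    congr 1
    rw [hσ1r]
    have : κ + (1 + κ) * (m + δ) = κ * (1 + m + δ) + m + δ := by ring
    rw [this, hκe, hδ]
    ring
  have e4 : (N : ℝ) ^ (m + η) * (N : ℝ) ^ (-K) = (N : ℝ)⁻¹ := by
    rw [← Real.rpow_add hN0, ← Real.rpow_neg_one]
    congr 1
    rw [hK]; ring
  calc 2 * Real.pi = ‖(2 * (Real.pi : ℂ))‖ := hC'
    _ ≤ (C2 * (N : ℝ) ^ κ * (X + (N : ℝ) ^ (-K)) * (N : ℝ) ^ ((1 + κ) * (σ1 - r))) * I1 +
        ((1 + C3 * C4') * (N : ℝ)⁻¹) * I2 := by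
        rw [hC]
        exact (norm_sub_le _ _).trans (add_le_add e1 e2)
    _ = C2 * I1 * ((N : ℝ) ^ κ * (N : ℝ) ^ ((1 + κ) * (σ1 - r))) * X +
        C2 * I1 * (((N : ℝ) ^ κ * (N : ℝ) ^ ((1 + κ) * (σ1 - r))) * (N : ℝ) ^ (-K)) +
        (1 + C3 * C4') * I2 * (N : ℝ)⁻¹ := by ring
    _ = C2 * I1 * (N : ℝ) ^ (m + η) * X + C2 * I1 * (N : ℝ)⁻¹ + (1 + C3 * C4') * I2 * (N : ℝ)⁻¹ := by
        rw [e3, e4]
    _ ≤ (C2 * I1 + (1 + C3 * C4') * I2) * (N : ℝ) ^ (m + η) * X +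
        (C2 * I1 + (1 + C3 * C4') * I2) / N := by
        rw [div_eq_mul_inv]
        have h5 : 0 ≤ (1 + C3 * C4') * I2 * ((N : ℝ) ^ (m + η) * X) := by positivity
        have h6 : (C2 * I1 + (1 + C3 * C4') * I2) * (N : ℝ) ^ (m + η) * X =
          C2 * I1 * (N : ℝ) ^ (m + η) * X + (1 + C3 * C4') * I2 * ((N : ℝ) ^ (m + η) * X) := by ring
        rw [h6]
        have h7 : (C2 * I1 + (1 + C3 * C4') * I2) * (N : ℝ)⁻¹ =
          C2 * I1 * (N : ℝ)⁻¹ + (1 + C3 * C4') * I2 * (N : ℝ)⁻¹ := by ring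
        rw [h7]
        linarith

theorem lower (h1 : Cauchy) (h2 : StepR) (h3 : Coef) : Lower := by
  intro lam mu F hLF p w σ hp ρ hρ η hη
  obtain ⟨C, hC, hL⟩ := lower_large h1 h2 h3 lam mu F hLF p w σ hp ρ hρ η hη
  set E : ℝ := max 0 (σ - ρ.re) + η with hE
  have hE0 : 0 < E := by
    have := le_max_left 0 (σ - ρ.re)
    linarith
  have hEe : -(max 0 (σ - ρ.re)) - η = -E := by rw [hE]; ring
  obtain ⟨N0, hN0⟩ := exists_nat_ge (C / Real.pi + 1)
  have hN0' : 1 ≤ N0 := by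
    have : (1 : ℝ) ≤ N0 := by
      have : 0 < C / Real.pi := by positivity
      linarith
    exact_mod_cast this
  have hN0r : (1 : ℝ) ≤ N0 := by exact_mod_cast hN0'
  set c' : ℝ := min 1 (Real.pi / C) with hc'
  have hc'0 : 0 < c' := by
    rw [hc']
    exact lt_min one_pos (by positivity)
  -- the bound for all `M ≥ N0`
  have key : ∀ (M : ℕ) (a : ℕ → ℂ), N0 ≤ M →
      ENNReal.ofReal (c' * (M : ℝ) ^ (-E)) ≤ nrm F p w σ M a := by
    intro M a hM
    have hM1 : 1 ≤ M := le_trans hN0' hM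
    have hM1r : (1 : ℝ) ≤ M := by exact_mod_cast hM1
    have hM0 : (0 : ℝ) < M := by linarith
    have hMp : (M : ℝ) ^ (-E) ≤ 1 := Real.rpow_le_one_of_one_le_of_nonpos hM1r (by linarith)
    have hMp0 : 0 < (M : ℝ) ^ (-E) := Real.rpow_pos_of_pos hM0 _
    by_cases hn : nrm F p w σ M a ≤ 1
    · have h := hL M a hM1 hn
      have hne : nrm F p w σ M a ≠ ⊤ := ne_top_of_le_ne_top ENNReal.one_ne_top hn
      apply ENNReal.ofReal_le_of_le_toReal
      set X := (nrm F p w σ M a).toReal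
      have h2 : C / M ≤ Real.pi := by
        rw [div_le_iff₀ hM0]
        have : C / Real.pi ≤ M := by
          have : (N0 : ℝ) ≤ M := by exact_mod_cast hM
          linarith
        rw [div_le_iff₀ Real.pi_pos] at this
        linarith
      have h3 : Real.pi ≤ C * (M : ℝ) ^ E * X := by linarith
      have h4 : (M : ℝ) ^ (-E) * (M : ℝ) ^ E = 1 := by
        rw [← Real.rpow_add hM0]; simp
      calc c' * (M : ℝ) ^ (-E) ≤ (Real.pi / C) * (M : ℝ) ^ (-E) := by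
            gcongr
            exact min_le_right _ _
        _ ≤ ((C * (M : ℝ) ^ E * X) / C) * (M : ℝ) ^ (-E) := by gcongr
        _ = ((M : ℝ) ^ (-E) * (M : ℝ) ^ E) * X := by field_simp
        _ = X := by rw [h4, one_mul]
    · have h5 : c' * (M : ℝ) ^ (-E) ≤ 1 := by
        calc c' * (M : ℝ) ^ (-E) ≤ 1 * 1 := by
              gcongr
              exact min_le_left _ _
          _ = 1 := by ring
      calc ENNReal.ofReal (c' * (M : ℝ) ^ (-E)) ≤ ENNReal.ofReal 1 := ENNReal.ofReal_le_ofReal h5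
        _ = 1 := ENNReal.ofReal_one
        _ ≤ _ := (not_le.mp hn).le
  refine ⟨c' * (N0 : ℝ) ^ (-E), by positivity, ?_⟩
  intro N a hN
  rw [hEe]
  have hNM : N ≤ N0 * N := Nat.le_mul_of_pos_left N (by omega)
  have h := key (N0 * N) (fun n => if n ≤ N then a n else 0) (Nat.le_mul_of_pos_right N0 (by omega))
  rw [nrm_trunc F p w σ N (N0 * N) hNM a] at h
  refine le_trans (le_of_eq ?_) h
  congr 1
  push_cast
  rw [Real.mul_rpow (by positivity) (by positivity)]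
  ring

end Pool.Agent.H889R2.Mol
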